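import Pool.Agent.U745.RZ.Main

/-!
# Real zeros of quadratic Dirichlet L-functions: symmetry and positivity
-/

set_option autoImplicit false

namespace Pool.Agent.U745.RZ

open Filter Topology Complex

variable {N : ℕ} [NeZero N] {χ : DirichletCharacter ℂ N}

/-- the symmetry of the zeros in `(0,1)` -/
theorem symm_zero (h1 : χ ≠ 1) (h2 : χ ^ 2 = 1) {s : ℝ} (hs0 : 0 < s) (hs1 : s < 1)
    (hz : χ.LFunction s = 0) : χ.LFunction ((1 - s : ℝ) : ℂ) = 0 := by
  set M := χ.conductor with hM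
  have : NeZero M := ⟨χ.conductor_ne_zero⟩
  set ψ : DirichletCharacter ℂ M := χ.primitiveCharacter with hψ
  have hdvd : M ∣ N := χ.conductor_dvd_level
  have hlift : DirichletCharacter.changeLevel hdvd ψ = χ := χ.changeLevel_primitiveCharacter
  have hψ1 : ψ ≠ 1 := by
    intro h
    apply h1
    rw [← hlift, h, map_one]
  have hψ2 : ψ ^ 2 = 1 := by
    apply DirichletCharacter.changeLevel_injective (R := ℂ) hdvd
    rw [map_pow, hlift, map_one, h2]
  have hψp : ψ.IsPrimitive := χ.primitiveCharacter_isPrimitive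
  have hinv : ψ⁻¹ = ψ := by
    rw [inv_eq_iff_mul_eq_one, ← sq, hψ2]
  have hMne : M ≠ 1 := by
    intro h
    exact hψ1 (DirichletCharacter.level_one' _ h)
  -- the Euler factors do not vanish
  have hfac : ∀ t : ℝ, 0 < t → (∏ p ∈ N.primeFactors, (1 - ψ p * (p : ℂ) ^ (-(t : ℂ)))) ≠ 0 := by
    intro t ht
    refine Finset.prod_ne_zero_iff.2 fun p hp => ?_
    have hpp := Nat.prime_of_mem_primeFactors hp
    have h3 : ‖ψ p * (p : ℂ) ^ (-(t : ℂ))‖ < 1 := by
      rw [norm_mul, Complex.norm_natCast_cpow_of_pos hpp.pos]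
      have h4 : (-(t : ℂ)).re = -t := by simp
      rw [h4]
      have h5 : (p : ℝ) ^ (-t) < 1 := Real.rpow_lt_one_of_one_lt_of_neg
        (by exact_mod_cast hpp.one_lt) (by linarith)
      have h6 := ψ.norm_le_one (p : ZMod M)
      have h7 : (0 : ℝ) ≤ (p : ℝ) ^ (-t) := Real.rpow_nonneg (Nat.cast_nonneg _) _
      calc ‖ψ p‖ * (p : ℝ) ^ (-t) ≤ 1 * (p : ℝ) ^ (-t) := mul_le_mul_of_nonneg_right h6 h7
        _ < 1 := by linarith
    intro h4
    have h5 : ψ p * (p : ℂ) ^ (-(t : ℂ)) = 1 := (sub_eq_zero.1 h4).symm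
    rw [h5, norm_one] at h3
    exact lt_irrefl _ h3
  have hL : ∀ t : ℝ, χ.LFunction (t : ℂ) = ψ.LFunction (t : ℂ) *
      ∏ p ∈ N.primeFactors, (1 - ψ p * (p : ℂ) ^ (-(t : ℂ))) := by
    intro t
    rw [← hlift, DirichletCharacter.LFunction_changeLevel hdvd ψ (Or.inl hψ1)]
  have hz1 : ψ.LFunction (s : ℂ) = 0 := by
    rw [hL] at hz
    exact (mul_eq_zero.1 hz).resolve_right (hfac s hs0)
  have hgam : ψ.gammaFactor (s : ℂ) ≠ 0 := by
    rcases ψ.even_or_odd with h | h
    · rw [h.gammaFactor_def]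
      exact Complex.Gammaℝ_ne_zero_of_re_pos (by simpa using hs0)
    · rw [h.gammaFactor_def]
      refine Complex.Gammaℝ_ne_zero_of_re_pos ?_
      rw [add_re, ofReal_re, one_re]
      linarith
  have hΛ : DirichletCharacter.completedLFunction ψ (s : ℂ) = 0 := by
    rw [DirichletCharacter.LFunction_eq_completed_div_gammaFactor ψ _ (Or.inr hMne)] at hz1
    exact (div_eq_zero_iff.1 hz1).resolve_right hgam
  have hΛ2 : DirichletCharacter.completedLFunction ψ (1 - (s : ℂ)) = 0 := by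
    rw [DirichletCharacter.IsPrimitive.completedLFunction_one_sub hψp, hinv, hΛ, mul_zero]
  have e1 : ((1 - s : ℝ) : ℂ) = 1 - (s : ℂ) := by push_cast; rfl
  rw [hL, e1, DirichletCharacter.LFunction_eq_completed_div_gammaFactor ψ _ (Or.inr hMne), hΛ2,
    zero_div, zero_mul]

/-- no zeros in `[1/2, 1)` implies positivity on `(0, 1)` -/
theorem pos_of_ne (h1 : χ ≠ 1) (h2 : χ ^ 2 = 1)
    (hz : ∀ s : ℝ, 1 / 2 ≤ s → s < 1 → χ.LFunction (s : ℂ) ≠ 0) (s : ℝ) (hs0 : 0 < s) :
    (χ.LFunction (s : ℂ)).im = 0 ∧ 0 < (χ.LFunction (s : ℂ)).re := by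
  have hne : ∀ t : ℝ, 0 < t → χ.LFunction (t : ℂ) ≠ 0 := by
    intro t ht h0
    by_cases ht1 : t < 1
    · by_cases ht2 : 1 / 2 ≤ t
      · exact hz t ht2 ht1 h0
      · push Not at ht2
        exact hz (1 - t) (by linarith) (by linarith) (symm_zero h1 h2 ht ht1 h0)
    · push Not at ht1
      exact DirichletCharacter.LFunction_ne_zero_of_one_le_re χ (Or.inl h1) (by simpa using ht1) h0
  have hre : ∀ t : ℝ, 0 < t → χ.LFunction (t : ℂ) =
      ((t * H353.LM.AA (H353.LM.FF (H353.LM.av χ)) 0 t : ℝ) : ℂ) := fun t ht =>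
    H353.LM.L_eq χ h1 h2 ht
  set f : ℝ → ℝ := fun t => (χ.LFunction (t : ℂ)).re with hf
  have hcont : Continuous f := Complex.continuous_re.comp
    ((DirichletCharacter.differentiable_LFunction h1).continuous.comp Complex.continuous_ofReal)
  have hf0 : ∀ t : ℝ, 0 < t → f t ≠ 0 := by
    intro t ht h0
    apply hne t ht
    have h3 := hre t ht
    have h4 : (χ.LFunction (t : ℂ)).re = 0 := h0
    rw [h3, Complex.ofReal_re] at h4
    rw [h3, h4, Complex.ofReal_zero]
  refine ⟨by rw [hre s hs0, Complex.ofReal_im], ?_⟩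
  by_contra hneg
  push Not at hneg
  have hbig : ∀ t : ℝ, 1 ≤ t → 0 < f t := by
    intro t ht
    have h3 := H353.LM.AA_pos χ h1 h2 t ht
    show 0 < (χ.LFunction (t : ℂ)).re
    rw [hre t (by linarith), Complex.ofReal_re]
    exact mul_pos (by linarith) h3
  have hs1 : s ≤ max s 1 := le_max_left _ _
  obtain ⟨c, hc, hc0⟩ := intermediate_value_Icc hs1 hcont.continuousOn
    ⟨hneg, (hbig (max s 1) (le_max_right _ _)).le⟩
  exact hf0 c (by linarith [hc.1]) hc0

end Pool.Agent.U745.RZ
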