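import Pool.Agent.U745.RZ.Sum
import Pool.Agent.H353R4.M11

/-!
# The sum over the primes and the real zeros
-/

set_option autoImplicit false

namespace Pool.Agent.U745.RZ

open NumberField IsDedekindDomain Filter Topology
open Pool.Agent.TH339.MP (nm two_le_nm)
open Pool.Agent.W524.RY (dir dir_re dir_im dir_ne inv_gamma_le)
open Pool.Agent.W189.LC (kap)
open Pool.Agent.R409.RA
open Pool.Agent.U745.LT

variable {N : ℕ}

/-- `χ(p) / √p` -/
noncomputable def xr (χ : DirichletCharacter ℂ N) (p : ℕ) : ℝ := (χ p).re / √p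

/-- the sum over the primes -/
noncomputable def primeSum (χ : DirichletCharacter ℂ N) (X : ℝ) : ℝ :=
  ∑' p : Nat.Primes, (χ p).re / (√p * Real.Gamma (1 + Real.log p / Real.log X))

/-- the constant -/
noncomputable def cc (χ : DirichletCharacter ℂ N) : ℝ :=
  (kap + Real.log 2 - Real.log (res N)) / 2 -
    ∑' p : Nat.Primes, (1 / 2 * Real.log ((1 + xr χ p) / (1 - xr χ p)) - xr χ p)

lemma chi_real {χ : DirichletCharacter ℂ N} (h2 : χ ^ 2 = 1) (n : ℕ) :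
    χ n = (((χ n).re : ℝ) : ℂ) ∧ ((χ n).re = 0 ∨ (χ n).re = 1 ∨ (χ n).re = -1) ∧
      χ n ^ 2 = (1 : DirichletCharacter ℂ N) n := by
  have h3 : χ n ^ 2 = (1 : DirichletCharacter ℂ N) n := by
    have h4 := DFunLike.congr_fun h2 (n : ZMod N)
    rw [MulChar.pow_apply' χ two_ne_zero] at h4
    exact h4
  by_cases hu : IsUnit (n : ZMod N)
  · rw [MulChar.one_apply hu] at h3 ⊢
    have h5 : χ n = 1 ∨ χ n = -1 := sq_eq_one_iff.1 h3
    rcases h5 with h4 | h4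
    · rw [h4]; simp
    · rw [h4]; simp
  · rw [χ.map_nonunit hu]
    refine ⟨by simp, by simp, ?_⟩
    rw [MulChar.map_nonunit _ hu]
    simp

section transport

variable [NeZero N] {χ : DirichletCharacter ℂ N}

/-- the parameters at the central point -/
noncomputable def aχ (χ : DirichletCharacter ℂ N) : HeightOneSpectrum (𝓞 ℚ) → Fin 1 → ℂ :=
  ca 0 (al fun n => χ n)

lemma aχ_eq (h2 : χ ^ 2 = 1) (v : HeightOneSpectrum (𝓞 ℚ)) (j : Fin 1) :
    aχ χ v j = ((xr χ (ee v) : ℝ) : ℂ) := by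
  have h1 : aχ χ v j = χ (ee v : ℕ) * (nm v : ℂ) ^ (-(((0 : ℕ) : ℂ) + 1) / 2) := by
    unfold aχ ca al
    rw [neg_div]
  have h6 : (-(((0 : ℕ) : ℂ) + 1) / 2) = ((-(1 / 2) : ℝ) : ℂ) := by push_cast; ring
  have hq : (0 : ℝ) ≤ ((ee v : ℕ) : ℝ) := Nat.cast_nonneg _
  rw [h1, h6, nm_eq, (chi_real h2 _).1]
  unfold xr
  have h7 : ((ee v : ℕ) : ℂ) = (((ee v : ℕ) : ℝ) : ℂ) := by push_cast; rfl
  have h8 : (((ee v : ℕ) : ℝ)) ^ (-(1 / 2) : ℝ) = (√((ee v : ℕ) : ℝ))⁻¹ := by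
    rw [Real.rpow_neg hq, Real.sqrt_eq_rpow]
  rw [h7, ← Complex.ofReal_cpow hq, h8, Complex.ofReal_div, div_eq_mul_inv, Complex.ofReal_inv]

lemma sqa_aχ (h2 : χ ^ 2 = 1) :
    sqa (aχ χ) = ca 1 (al fun n => (1 : DirichletCharacter ℂ N) n) := by
  funext v j
  have h1 : aχ χ v j = χ (ee v : ℕ) * (nm v : ℂ) ^ (-(1 / 2) : ℂ) := by
    unfold aχ ca al
    congr 2
    push_cast
    ring
  have h3 : ca 1 (al fun n => (1 : DirichletCharacter ℂ N) n) v j =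
      (1 : DirichletCharacter ℂ N) (ee v : ℕ) * (nm v : ℂ) ^ (-1 : ℂ) := by
    unfold ca al
    congr 2
    push_cast
    ring
  unfold sqa
  rw [h1, h3, mul_pow, (chi_real h2 _).2.2]
  congr 1
  have h4 : (nm v : ℂ) ≠ 0 := by
    have := nm_pos v
    exact_mod_cast this.ne'
  rw [sq, ← Complex.cpow_add _ _ h4]
  congr 1
  ring

lemma cen_aχ (h1 : χ ≠ 1) : Cen (aχ χ) := cen_ca (cont_chi h1).temp

lemma wgt_real (T : ℝ) (v : HeightOneSpectrum (𝓞 ℚ)) :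
    wgt 0 T v = (((Real.Gamma (1 + Real.log (ee v) / T))⁻¹ : ℝ) : ℂ) := by
  unfold wgt
  have e1 : dir 0 = 1 := by simp [dir]
  have e2 : (1 + (Real.log (ee v : ℕ) : ℂ) / (T : ℂ)) =
      ((1 + Real.log (ee v : ℕ) / T : ℝ) : ℂ) := by push_cast; rfl
  rw [e1, one_mul, nm_eq, Complex.ofReal_inv, e2, Complex.Gamma_ofReal]

lemma primeSum_eq (h2 : χ ^ 2 = 1) (X : ℝ) :
    ((primeSum χ X : ℝ) : ℂ) = ∑' v, aχ χ v 0 * wgt 0 (Real.log X) v := by
  unfold primeSum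
  rw [Complex.ofReal_tsum, ← ee.tsum_eq]
  refine tsum_congr fun v => ?_
  rw [aχ_eq h2, wgt_real, ← Complex.ofReal_mul]
  congr 1
  unfold xr
  rw [div_mul_eq_div_div, div_eq_mul_inv]

lemma xr_abs (h1 : χ ≠ 1) (h2 : χ ^ 2 = 1) (v : HeightOneSpectrum (𝓞 ℚ)) :
    |xr χ (ee v)| ≤ 3 / 4 := by
  have h3 := (cen_aχ h1).le34 v 0
  rw [aχ_eq h2, Complex.norm_real] at h3
  exact h3

lemma EE_real (h1 : χ ≠ 1) (h2 : χ ^ 2 = 1) (v : HeightOneSpectrum (𝓞 ℚ)) :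
    EE (aχ χ v 0) = ((1 / 2 * Real.log ((1 + xr χ (ee v)) / (1 - xr χ (ee v))) -
      xr χ (ee v) : ℝ) : ℂ) := by
  have h3 := xr_abs h1 h2 v
  obtain ⟨h4, h5⟩ := abs_le.1 h3
  rw [aχ_eq h2]
  set x := xr χ (ee v) with hx
  have hp : 0 < 1 + x := by linarith
  have hm : 0 < 1 - x := by linarith
  have e1 : (1 - (x : ℂ)) = ((1 - x : ℝ) : ℂ) := by push_cast; rfl
  have e2 : (1 - (x : ℂ) ^ 2) = (((1 - x) * (1 + x) : ℝ) : ℂ) := by push_cast; ring
  unfold EE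
  rw [e1, e2, ← Complex.ofReal_log hm.le, ← Complex.ofReal_log (mul_pos hm hp).le,
    Real.log_mul hm.ne' hp.ne', Real.log_div hp.ne' hm.ne']
  push_cast
  ring

lemma EE_bound (h1 : χ ≠ 1) (v : HeightOneSpectrum (𝓞 ℚ)) :
    ‖EE (aχ χ v 0)‖ ≤ 2 * (nm v : ℝ) ^ (-(3 / 2) : ℝ) := by
  have hc := cen_aχ h1
  exact (EE_le (hc.le34 v 0)).trans (mul_le_mul_of_nonneg_left (Cen.cube hc v 0) (by norm_num))

lemma EE_tsum (h1 : χ ≠ 1) (h2 : χ ^ 2 = 1) : (∑' v, EE (aχ χ v 0)).re =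
    ∑' p : Nat.Primes, (1 / 2 * Real.log ((1 + xr χ p) / (1 - xr χ p)) - xr χ p) := by
  rw [tsum_congr (EE_real h1 h2), ← Complex.ofReal_tsum, Complex.ofReal_re, ← ee.tsum_eq]

/-- the master formula -/
theorem master (h1 : χ ≠ 1) (h2 : χ ^ 2 = 1) : ∃ C : ℝ, 0 ≤ C ∧ ∀ᶠ X : ℝ in atTop,
    |primeSum χ X + (WW (aχ χ) 0 X).re + 1 / 2 * Real.log (Real.log X) - cc χ| ≤
      C / Real.log X := by
  have hc := cen_aχ h1
  obtain ⟨C1, T1, hC10, hT1, hC1⟩ := one_asymp N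
  obtain ⟨-, C2, hC20, hC2⟩ := err_lim (K := ℚ) (E := fun v => EE (aχ χ v 0)) (B := 2) (by norm_num)
    (EE_bound h1)
  refine ⟨C1 + C2, by positivity, ?_⟩
  have hlog : Tendsto Real.log atTop atTop := Real.tendsto_log_atTop
  filter_upwards [hlog.eventually (eventually_ge_atTop (2 * T1)),
    hlog.eventually (eventually_gt_atTop 0)] with X hX hT0
  set T := Real.log X with hT
  have h3 := (sum_eq hc hT0).2
  rw [← primeSum_eq h2, sqa_aχ h2] at h3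
  have h4 := hC1 (T / 2) (by linarith)
  have h5 := hC2 T hT0
  have h6 : primeSum χ X = -(WW (aχ χ) 0 X).re +
      1 / 2 * (cmean (ca 1 (al fun n => (1 : DirichletCharacter ℂ N) n)) 0 (T / 2)).re -
      (∑' v, EE (aχ χ v 0) * wgt 0 T v).re := by
    have h7 := congrArg Complex.re h3
    rw [Complex.ofReal_re, Complex.sub_re, Complex.add_re, Complex.neg_re] at h7
    have h8 : (1 / 2 * cmean (ca 1 (al fun n => (1 : DirichletCharacter ℂ N) n)) 0 (T / 2)).re =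
        1 / 2 * (cmean (ca 1 (al fun n => (1 : DirichletCharacter ℂ N) n)) 0 (T / 2)).re := by
      have e : (1 / 2 : ℂ) = ((1 / 2 : ℝ) : ℂ) := by push_cast; rfl
      rw [e, Complex.re_ofReal_mul]
    rw [h8] at h7
    exact h7
  have h9 : |(∑' v, EE (aχ χ v 0) * wgt 0 T v).re - (∑' v, EE (aχ χ v 0)).re| ≤ C2 / T := by
    rw [← Complex.sub_re]
    exact (Complex.abs_re_le_norm _).trans h5
  rw [EE_tsum h1 h2] at h9
  have hlog2 : Real.log (T / 2) = Real.log T - Real.log 2 := Real.log_div hT0.ne' (by norm_num)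
  rw [hlog2] at h4
  have e1 : C1 / (T / 2) = 2 * (C1 / T) := by field_simp
  rw [e1] at h4
  have e2 : (C1 + C2) / T = C1 / T + C2 / T := by ring
  rw [h6, e2]
  unfold cc
  obtain ⟨a1, a2⟩ := abs_le.1 h4
  obtain ⟨b1, b2⟩ := abs_le.1 h9
  rw [abs_le]
  constructor <;> linarith

end transport

end Pool.Agent.U745.RZ
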