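import Pool.Agent.U745.LT.Loc
import Mathlib.NumberTheory.Padics.HeightOneSpectrum
import Mathlib.NumberTheory.EulerProduct.DirichletLSeries
import Mathlib.NumberTheory.LSeries.Nonvanishing

/-!
# Dirichlet L-functions as L-functions over the places of `ℚ`
-/

set_option autoImplicit false

namespace Pool.Agent.U745.RZ

open NumberField IsDedekindDomain Filter Topology
open Pool.Agent.TH339.MP (nm two_le_nm)
open Pool.Agent.R409.RA
open Pool.Agent.R409.EV (LProd)
open Pool.Agent.U745.LT

/-- the prime number of a finite place of `ℚ` -/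
noncomputable def ee : HeightOneSpectrum (𝓞 ℚ) ≃ Nat.Primes := Rat.HeightOneSpectrum.primesEquiv

theorem nm_eq (v : HeightOneSpectrum (𝓞 ℚ)) : nm v = (ee v : ℕ) := by
  have h1 : (ee v : ℕ) = Rat.HeightOneSpectrum.natGenerator v := rfl
  have h2 := Rat.HeightOneSpectrum.span_natGenerator v
  have h3 : Ideal.absNorm v.asIdeal =
      Ideal.absNorm (v.asIdeal.map (Rat.IsIntegralClosure.intEquiv (𝓞 ℚ))) := by
    rw [Ideal.absNorm_apply, Ideal.absNorm_apply, Submodule.cardQuot_apply, Submodule.cardQuot_apply]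
    exact Nat.card_congr
      (Ideal.quotientEquiv v.asIdeal _ (Rat.IsIntegralClosure.intEquiv (𝓞 ℚ)) rfl).toEquiv
  unfold nm
  rw [h1, h3, ← h2, Ideal.absNorm_span_singleton]
  simp

/-- parameters of degree one -/
noncomputable def al (f : ℕ → ℂ) (v : HeightOneSpectrum (𝓞 ℚ)) (_ : Fin 1) : ℂ := f (ee v)

theorem LProd_al (f : ℕ → ℂ) (s : ℂ) :
    LProd (al f) s = ∏' p : Nat.Primes, (1 - f p * (p : ℂ) ^ (-s))⁻¹ := by
  unfold LProd
  rw [← ee.tprod_eq]
  refine tprod_congr fun v => ?_
  rw [Fin.prod_univ_one]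
  have h : Ideal.absNorm v.asIdeal = (ee v : ℕ) := nm_eq v
  rw [h]
  rfl

variable {N : ℕ} [NeZero N]

theorem LProd_chi (χ : DirichletCharacter ℂ N) {s : ℂ} (hs : 1 < s.re) :
    LProd (al fun n => χ n) s = χ.LFunction s := by
  rw [LProd_al, DirichletCharacter.LSeries_eulerProduct_tprod χ hs,
    DirichletCharacter.LFunction_eq_LSeries χ hs]

/-- nontrivial characters, the central point is `1/2` -/
theorem cont_chi {χ : DirichletCharacter ℂ N} (hχ : χ ≠ 1) :
    Cont 0 (al fun n => χ n) χ.LFunction where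
  temp v j := by
    have h1 : ‖χ (ee v : ℕ)‖ ≤ 1 := χ.norm_le_one _
    show ‖χ (ee v : ℕ)‖ ≤ _
    simpa using h1
  mer s _ := ((DirichletCharacter.differentiable_LFunction hχ).analyticAt s).meromorphicAt
  eq s hs := (LProd_chi χ (by simpa using hs)).symm

/-- the trivial character, the central point is `1` -/
theorem cont_one : Cont 1 (al fun n => (1 : DirichletCharacter ℂ N) n)
    (1 : DirichletCharacter ℂ N).LFunction where
  temp v j := by
    have h1 : ‖(1 : DirichletCharacter ℂ N) (ee v : ℕ)‖ ≤ 1 :=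
      (1 : DirichletCharacter ℂ N).norm_le_one _
    show ‖(1 : DirichletCharacter ℂ N) (ee v : ℕ)‖ ≤ _
    refine h1.trans ?_
    have h2 : (1 : ℝ) ≤ (Ideal.absNorm v.asIdeal : ℝ) := by
      have : 2 ≤ Ideal.absNorm v.asIdeal := two_le_nm v
      exact_mod_cast (by omega : 1 ≤ Ideal.absNorm v.asIdeal)
    exact Real.one_le_rpow h2 (by positivity)
  mer s _ := by
    by_cases hs : s = 1
    · rw [hs]
      have h1 : AnalyticAt ℂ (DirichletCharacter.LFunctionTrivChar₁ N) 1 :=
        (DirichletCharacter.differentiable_LFunctionTrivChar₁ N).analyticAt 1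
      have h2 : MeromorphicAt (fun s : ℂ => (s - 1)⁻¹ * DirichletCharacter.LFunctionTrivChar₁ N s) 1 :=
        (MeromorphicAt.inv (by fun_prop : MeromorphicAt (fun s : ℂ => s - 1) 1)).fun_mul
          h1.meromorphicAt
      refine h2.congr ?_
      filter_upwards [self_mem_nhdsWithin] with s hs
      have hs1 : s ≠ 1 := hs
      have hs2 : s - 1 ≠ 0 := sub_ne_zero.2 hs1
      rw [DirichletCharacter.LFunctionTrivChar₁, Function.update_of_ne hs1, ← mul_assoc,
        inv_mul_cancel₀ hs2, one_mul]
    · have ho : IsOpen {z : ℂ | z ≠ 1} := isOpen_ne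
      have h1 : DifferentiableOn ℂ (1 : DirichletCharacter ℂ N).LFunction {z : ℂ | z ≠ 1} :=
        fun z hz => (DirichletCharacter.differentiableAt_LFunction _ z
          (Or.inl hz)).differentiableWithinAt
      exact (h1.analyticAt (ho.mem_nhds hs)).meromorphicAt
  eq s hs := by
    refine (LProd_chi _ ?_).symm
    push_cast at hs
    linarith

/-- the residue -/
noncomputable def res (N : ℕ) : ℝ := ∏ p ∈ N.primeFactors, (1 - (p : ℝ)⁻¹)

theorem res_pos (N : ℕ) : 0 < res N := by
  unfold res
  refine Finset.prod_pos fun p hp => ?_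
  have h1 := (Nat.prime_of_mem_primeFactors hp).one_lt
  have h2 : (1 : ℝ) < p := by exact_mod_cast h1
  have h3 : (p : ℝ)⁻¹ < 1 := inv_lt_one_of_one_lt₀ h2
  linarith

theorem order_one : meromorphicOrderAt (1 : DirichletCharacter ℂ N).LFunction 1 = (-1 : ℤ) ∧
    meromorphicTrailingCoeffAt (1 : DirichletCharacter ℂ N).LFunction 1 = (res N : ℂ) := by
  have h1 : MeromorphicAt (1 : DirichletCharacter ℂ N).LFunction 1 :=
    (cont_one (N := N)).mer 1 (by norm_num)
  refine (leading_iff h1 (by exact_mod_cast (res_pos N).ne')).1 ?_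
  unfold Leading
  have h2 := DirichletCharacter.LFunctionTrivChar_residue_one (N := N)
  have h3 : ((res N : ℝ) : ℂ) = ∏ p ∈ N.primeFactors, (1 - (p : ℂ)⁻¹) := by
    unfold res
    push_cast
    rfl
  rw [h3]
  refine h2.congr fun s => ?_
  rw [neg_neg, zpow_one]

theorem order_chi {χ : DirichletCharacter ℂ N} (hχ : χ ≠ 1) (s : ℂ) :
    meromorphicOrderAt χ.LFunction s = 0 ↔ χ.LFunction s ≠ 0 := by
  have h1 := (DirichletCharacter.differentiable_LFunction hχ).analyticAt s
  constructor
  · intro h2 h3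
    have h4 := h1.meromorphicOrderAt_eq
    rw [h2] at h4
    have h5 : analyticOrderAt χ.LFunction s = 0 := by
      by_contra hne
      cases h6 : analyticOrderAt χ.LFunction s with
      | top => rw [h6] at h4; simp at h4
      | coe n =>
        rw [h6] at h4 hne
        have : n ≠ 0 := by
          rintro rfl
          exact hne rfl
        simp at h4
        exact this (by exact_mod_cast h4.symm)
    exact (h1.analyticOrderAt_eq_zero.1 h5) h3
  · intro h2
    exact order_of_ne h1 h2

end Pool.Agent.U745.RZ
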