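import Pool.Agent.U745.RZ.Rat

/-!
# The sum of `χ(p) / √p` with the weight `1 / Γ(1 + log p / log X)`
-/

set_option autoImplicit false

namespace Pool.Agent.U745.RZ

open NumberField IsDedekindDomain Filter Topology
open Pool.Agent.TH339.MP (nm two_le_nm)
open Pool.Agent.W524.RY (dir dir_re dir_im dir_ne inv_gamma_le)
open Pool.Agent.W189.LC (kap)
open Pool.Agent.R409.RA
open Pool.Agent.U745.LT

section general

variable {K : Type} [Field K] [NumberField K]

theorem w_le {T : ℝ} (hT : 0 < T) (v : HeightOneSpectrum (𝓞 K)) : ‖wgt 0 T v‖ ≤ 4 := by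
  have hv : 0 ≤ Real.log (nm v) / T := div_nonneg (log_nm_nonneg v) hT.le
  have h1 := inv_gamma_le 0 (c := 0) le_rfl hv
  rw [Complex.ofReal_div] at h1
  refine h1.trans ?_
  have h2 := Real.exp_one_lt_d9
  simp
  linarith

theorem w_summable {T : ℝ} (hT : 0 < T) :
    Summable fun v : HeightOneSpectrum (𝓞 K) => ‖wgt 0 T v‖ := by
  refine Summable.of_nonneg_of_le (fun v => norm_nonneg _) (fun v => ?_)
    ((summable_nm (K := K) (σ := 2) (by norm_num)).mul_left (Real.exp (Real.exp (2 * T)) + 1))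
  have hq := nm_pos v
  have hv : 0 ≤ Real.log (nm v) / T := div_nonneg (log_nm_nonneg v) hT.le
  have h2 := inv_gamma_le 0 (c := 2 * T) (by positivity) hv
  have h3 : Real.exp (-((2 * T - Real.pi * |(0 : ℝ)|) * (Real.log (nm v) / T))) =
      (nm v : ℝ) ^ (-(2 : ℝ)) := by
    rw [Real.rpow_def_of_pos hq]
    congr 1
    rw [abs_zero]
    field_simp
    ring
  rw [h3, Complex.ofReal_div] at h2
  exact h2

theorem inv_gamma_lip : ∃ C : ℝ, 0 ≤ C ∧ ∀ u : ℝ, 0 ≤ u →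
    ‖(Complex.Gamma (1 + u))⁻¹ - 1‖ ≤ C * u := by
  set g : ℂ → ℂ := fun z => (Complex.Gamma z)⁻¹ with hg
  have hd : Differentiable ℂ g := Complex.differentiable_one_div_Gamma
  have hcd : Continuous (deriv g) := by
    have : ContDiff ℂ 1 g := hd.contDiff
    exact this.continuous_deriv le_rfl
  obtain ⟨M, hM⟩ := (isCompact_closedBall (1 : ℂ) 1).exists_bound_of_continuousOn hcd.continuousOn
  have hM0 : 0 ≤ M := (norm_nonneg _).trans (hM 1 (by simp))
  refine ⟨max M 5, by positivity, fun u hu => ?_⟩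
  by_cases hu1 : u ≤ 1
  · have h1 := (convex_closedBall (1 : ℂ) 1).norm_image_sub_le_of_norm_deriv_le
      (f := g) (C := M) (x := 1) (y := 1 + u) (fun z _ => hd z) (fun z hz => hM z hz)
      (by simp) (by simp [abs_of_nonneg hu, hu1])
    have h2 : g 1 = 1 := by simp [hg]
    rw [h2, add_sub_cancel_left, Complex.norm_real, Real.norm_of_nonneg hu] at h1
    exact h1.trans (mul_le_mul_of_nonneg_right (le_max_left _ _) hu)
  · push Not at hu1
    have h1 := inv_gamma_le 0 (c := 0) le_rfl hu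
    have h2 := Real.exp_one_lt_d9
    have e1 : dir 0 = 1 := by simp [dir]
    rw [e1, one_mul] at h1
    have h3 : ‖(Complex.Gamma (1 + u))⁻¹‖ ≤ 4 := by
      refine h1.trans ?_
      simp
      linarith
    have h5 : ‖(Complex.Gamma (1 + u))⁻¹ - 1‖ ≤ 5 := by
      refine (norm_sub_le _ _).trans ?_
      rw [norm_one]
      linarith
    calc ‖(Complex.Gamma (1 + u))⁻¹ - 1‖ ≤ 5 := h5
      _ ≤ 5 * u := by linarith
      _ ≤ max M 5 * u := mul_le_mul_of_nonneg_right (le_max_right _ _) hu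

theorem w_sub_one (K : Type) [Field K] [NumberField K] : ∃ C : ℝ, 0 ≤ C ∧ ∀ T : ℝ, 0 < T →
    ∀ v : HeightOneSpectrum (𝓞 K),
    ‖wgt 0 T v - 1‖ ≤ C * (Real.log (nm v) / T) := by
  obtain ⟨C, hC0, hC⟩ := inv_gamma_lip
  refine ⟨C, hC0, fun T hT v => ?_⟩
  have hv : 0 ≤ Real.log (nm v) / T := div_nonneg (log_nm_nonneg v) hT.le
  have h1 := hC _ hv
  have e1 : dir 0 = 1 := by simp [dir]
  unfold wgt
  rw [e1, one_mul]
  rw [Complex.ofReal_div] at h1
  exact h1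

/-- a weighted sum with coefficients `O(q^{-3/2})` converges at the rate `1 / T` -/
theorem err_lim {E : HeightOneSpectrum (𝓞 K) → ℂ} {B : ℝ} (hB : 0 ≤ B)
    (hE : ∀ v, ‖E v‖ ≤ B * (nm v : ℝ) ^ (-(3 / 2) : ℝ)) : Summable (fun v => ‖E v‖) ∧
    ∃ C : ℝ, 0 ≤ C ∧ ∀ T : ℝ, 0 < T → ‖∑' v, E v * wgt 0 T v - ∑' v, E v‖ ≤ C / T := by
  have hs : Summable fun v : HeightOneSpectrum (𝓞 K) => ‖E v‖ :=
    Summable.of_nonneg_of_le (fun v => norm_nonneg _) hE
      ((summable_nm (K := K) (σ := 3 / 2) (by norm_num)).mul_left B)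
  refine ⟨hs, ?_⟩
  obtain ⟨C, hC0, hC⟩ := w_sub_one K
  have hs2 : Summable fun v : HeightOneSpectrum (𝓞 K) =>
      4 * B * C * (nm v : ℝ) ^ (-(5 / 4) : ℝ) := (summable_nm (by norm_num)).mul_left _
  refine ⟨∑' v : HeightOneSpectrum (𝓞 K), 4 * B * C * (nm v : ℝ) ^ (-(5 / 4) : ℝ),
    tsum_nonneg fun v => by have := nm_pos v; positivity, fun T hT => ?_⟩
  have hs3 : Summable fun v : HeightOneSpectrum (𝓞 K) => E v * wgt 0 T v := by
    refine Summable.of_norm_bounded (hs.mul_right 4) fun v => ?_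
    rw [norm_mul]
    exact mul_le_mul_of_nonneg_left (w_le hT v) (norm_nonneg _)
  rw [← hs3.tsum_sub hs.of_norm, div_eq_mul_inv, ← tsum_mul_right]
  refine tsum_of_norm_bounded (hs2.mul_right _).hasSum fun v => ?_
  have e : E v * wgt 0 T v - E v = E v * (wgt 0 T v - 1) := by ring
  rw [e, norm_mul]
  have h3 : Real.log (nm v) ≤ (nm v : ℝ) ^ (1 / 4 : ℝ) / (1 / 4) :=
    Real.log_le_rpow_div (nm_pos v).le (by norm_num)
  have h4 : (nm v : ℝ) ^ (-(3 / 2) : ℝ) * (nm v : ℝ) ^ (1 / 4 : ℝ) =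
      (nm v : ℝ) ^ (-(5 / 4) : ℝ) := by
    rw [← Real.rpow_add (nm_pos v)]
    norm_num
  have hp : 0 ≤ (nm v : ℝ) ^ (-(3 / 2) : ℝ) := Real.rpow_nonneg (nm_pos v).le _
  calc ‖E v‖ * ‖wgt 0 T v - 1‖
      ≤ (B * (nm v : ℝ) ^ (-(3 / 2) : ℝ)) * (C * (Real.log (nm v) / T)) :=
        mul_le_mul (hE v) (hC T hT v) (norm_nonneg _) (by positivity)
    _ ≤ (B * (nm v : ℝ) ^ (-(3 / 2) : ℝ)) * (C * (((nm v : ℝ) ^ (1 / 4 : ℝ) / (1 / 4)) / T)) := by
        gcongr
    _ = 4 * B * C * ((nm v : ℝ) ^ (-(3 / 2) : ℝ) * (nm v : ℝ) ^ (1 / 4 : ℝ)) * T⁻¹ := by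
        field_simp
    _ = _ := by rw [h4]

/-- the error term -/
noncomputable def EE (x : ℂ) : ℂ := -x - (Complex.log (1 - x) - 1 / 2 * Complex.log (1 - x ^ 2))

theorem EE_le {x : ℂ} (hx : ‖x‖ ≤ 3 / 4) : ‖EE x‖ ≤ 2 * ‖x‖ ^ 3 := by
  have hn := norm_nonneg x
  have h1 := Complex.norm_log_sub_logTaylor_le 2 (z := -x) (by rw [norm_neg]; linarith)
  have h2 := Complex.norm_log_sub_logTaylor_le 1 (z := -(x ^ 2)) (by
    rw [norm_neg, norm_pow]; nlinarith)
  have e1 : Complex.logTaylor (2 + 1) (-x) = -x - x ^ 2 / 2 := by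
    simp [Complex.logTaylor, Finset.sum_range_succ]
    ring
  have e2 : Complex.logTaylor (1 + 1) (-(x ^ 2)) = -(x ^ 2) := by
    simp [Complex.logTaylor, Finset.sum_range_succ]
  rw [e1, norm_neg] at h1
  rw [e2, norm_neg, norm_pow] at h2
  have h3 : (1 - ‖x‖)⁻¹ ≤ 4 := by
    rw [inv_le_comm₀ (by linarith) (by norm_num)]
    linarith
  have h4 : (1 - ‖x‖ ^ 2)⁻¹ ≤ 16 / 7 := by
    rw [inv_le_comm₀ (by nlinarith) (by norm_num)]
    nlinarith
  have h5 : ‖Complex.log (1 + -x) - (-x - x ^ 2 / 2)‖ ≤ 4 / 3 * ‖x‖ ^ 3 := by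
    refine h1.trans ?_
    have : (0 : ℝ) ≤ ‖x‖ ^ 3 := by positivity
    push_cast
    norm_num
    nlinarith
  have h6 : ‖Complex.log (1 + -(x ^ 2)) - -(x ^ 2)‖ ≤ 6 / 7 * ‖x‖ ^ 3 := by
    refine h2.trans ?_
    have h7 : (0 : ℝ) ≤ ‖x‖ ^ 3 := by positivity
    push_cast
    norm_num
    have h8 : (‖x‖ ^ 2) ^ 2 ≤ 3 / 4 * ‖x‖ ^ 3 := by nlinarith
    have h9 : 0 ≤ (1 - ‖x‖ ^ 2)⁻¹ := inv_nonneg.2 (by nlinarith)
    nlinarith [mul_le_mul h8 h4 h9 (by positivity : (0 : ℝ) ≤ 3 / 4 * ‖x‖ ^ 3)]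
  have e3 : EE x = -(Complex.log (1 + -x) - (-x - x ^ 2 / 2)) +
      1 / 2 * (Complex.log (1 + -(x ^ 2)) - -(x ^ 2)) := by
    unfold EE
    rw [← sub_eq_add_neg, ← sub_eq_add_neg]
    ring
  rw [e3]
  refine (norm_add_le _ _).trans ?_
  rw [norm_neg, norm_mul]
  have h10 : ‖(1 / 2 : ℂ)‖ = 1 / 2 := by norm_num
  rw [h10]
  have : (0 : ℝ) ≤ ‖x‖ ^ 3 := by positivity
  linarith

variable {a : HeightOneSpectrum (𝓞 K) → Fin 1 → ℂ}

/-- the identity for the sum of the parameters -/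
theorem sum_eq (h : Cen a) {T : ℝ} (hT : 0 < T) :
    (Summable fun v => ‖a v 0 * wgt 0 T v‖) ∧
    ∑' v, a v 0 * wgt 0 T v = -cmean2 a 0 T + 1 / 2 * cmean (sqa a) 0 (T / 2) -
      ∑' v, EE (a v 0) * wgt 0 T v := by
  have s1 := (cmean_summable h 0 hT).of_norm
  have s2 := (cmean_summable (cen_sqa h) 0 hT).of_norm
  have hE : ∀ v, ‖EE (a v 0)‖ ≤ 2 := by
    intro v
    have h1 := h.le34 v 0
    refine (EE_le h1).trans ?_
    have h2 := norm_nonneg (a v 0)
    have : ‖a v 0‖ ^ 3 ≤ 1 := pow_le_one₀ h2 (by linarith)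
    linarith
  have s3 : Summable fun v => EE (a v 0) * wgt 0 T v := by
    refine Summable.of_norm_bounded ((w_summable (K := K) hT).mul_left 2) fun v => ?_
    rw [norm_mul]
    exact mul_le_mul_of_nonneg_right (hE v) (norm_nonneg _)
  have hS : ∀ v, a v 0 * wgt 0 T v = -(cv a v * wgt 0 T v) + 1 / 2 * (cv (sqa a) v * wgt 0 T v) -
      EE (a v 0) * wgt 0 T v := by
    intro v
    unfold EE cv sqa
    rw [Fin.sum_univ_one, Fin.sum_univ_one]
    ring
  constructor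
  · refine Summable.congr (((s1.neg.add (s2.mul_left (1 / 2))).sub s3).norm) fun v => ?_
    rw [hS v]
  · rw [tsum_congr hS, (s1.neg.add (s2.mul_left (1 / 2))).tsum_sub s3,
      s1.neg.tsum_add (s2.mul_left (1 / 2)), tsum_neg, tsum_mul_left]
    unfold cmean2 cmean
    ring

end general

variable {N : ℕ} [NeZero N]

/-- the sum over the primes for the trivial character -/
theorem one_asymp (N : ℕ) [NeZero N] : ∃ C T₀ : ℝ, 0 ≤ C ∧ 1 ≤ T₀ ∧ ∀ T ≥ T₀,
    |(cmean (ca 1 (al fun n => (1 : DirichletCharacter ℂ N) n)) 0 T).re +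
      (Real.log T - kap) + Real.log (res N)| ≤ C / T := by
  have hc1 := cont_one (N := N)
  set a := ca 1 (al fun n => (1 : DirichletCharacter ℂ N) n) with ha
  have hc : Cen a := cen_ca hc1.temp
  have e0 : (((1 : ℕ) : ℂ) + 1) / 2 = 1 := by norm_num
  obtain ⟨ho, ht⟩ := order_one (N := N)
  obtain ⟨q1, hq1, C, T₀, hC0, hT₀, hC⟩ := cmean2_asymp hc1 0 (m := -1) (by rw [e0]; exact ho) (by
    intro x hx
    have e1 : rp 1 0 x = ((1 + x : ℝ) : ℂ) := by
      unfold rp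
      rw [e0]
      simp [dir]
    have hne : ((1 + x : ℝ) : ℂ) ≠ 1 := by
      intro h
      have h2 : (1 + x : ℝ) = 1 := by exact_mod_cast h
      linarith
    rw [e1]
    have hop : IsOpen {z : ℂ | z ≠ 1} := isOpen_ne
    have h1 : DifferentiableOn ℂ (1 : DirichletCharacter ℂ N).LFunction {z : ℂ | z ≠ 1} :=
      fun z hz => (DirichletCharacter.differentiableAt_LFunction _ z
        (Or.inl hz)).differentiableWithinAt
    refine order_of_ne (h1.analyticAt (hop.mem_nhds hne)) ?_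
    refine DirichletCharacter.LFunction_ne_zero_of_one_le_re _ (Or.inr hne) ?_
    rw [Complex.ofReal_re]
    linarith)
  rw [e0, ht] at hq1
  have hdir : dir 0 = 1 := by simp [dir]
  rw [hdir, one_zpow, one_mul] at hq1
  have hq : q1.re = Real.log (res N) := by
    have h2 := congrArg norm hq1
    rw [Complex.norm_exp, Complex.norm_real, Real.norm_of_nonneg (res_pos N).le] at h2
    rw [← h2, Real.log_exp]
  -- the difference between the two means
  obtain ⟨-, C2, hC20, hC2⟩ := err_lim (K := ℚ) (E := fun v => cv (sqa a) v) (B := 4) (by norm_num)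
    (fun v => by
      have h1 : cv (sqa a) v = Complex.log (1 - a v 0 ^ 2) := by
        unfold cv sqa
        rw [Fin.sum_univ_one]
      have h2 : ‖sqa a v 0‖ ≤ 3 / 4 := (cen_sqa hc).le34 v 0
      have h3 := log_bound h2
      rw [h1]
      refine h3.trans (mul_le_mul_of_nonneg_left ?_ (by norm_num))
      have h4 : ‖a v 0‖ ≤ (nm v : ℝ) ^ (-(1 : ℝ)) := by
        have h5 : a v 0 = (1 : DirichletCharacter ℂ N) (ee v : ℕ) *
            (nm v : ℂ) ^ (-(((1 : ℕ) : ℂ) + 1) / 2) := by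
          rw [ha]
          unfold ca al
          rw [neg_div]
        have h6 : (-(((1 : ℕ) : ℂ) + 1) / 2) = ((-1 : ℝ) : ℂ) := by norm_num
        have hpos : 0 < nm v := by exact_mod_cast nm_pos v
        rw [h5, h6, norm_mul, Complex.norm_natCast_cpow_of_pos hpos, Complex.ofReal_re]
        exact mul_le_of_le_one_left (Real.rpow_nonneg (nm_pos v).le _)
          ((1 : DirichletCharacter ℂ N).norm_le_one _)
      have h7 : ‖sqa a v 0‖ ≤ (nm v : ℝ) ^ (-(2 : ℝ)) := by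
        unfold sqa
        rw [norm_pow]
        calc ‖a v 0‖ ^ 2 ≤ ((nm v : ℝ) ^ (-(1 : ℝ))) ^ 2 :=
              pow_le_pow_left₀ (norm_nonneg _) h4 2
          _ = _ := by
            rw [← Real.rpow_natCast, ← Real.rpow_mul (nm_pos v).le]
            norm_num
      refine h7.trans (Real.rpow_le_rpow_of_exponent_le (by linarith [two_le v]) (by norm_num)))
  refine ⟨C + 2 * C2, T₀, by positivity, hT₀, fun T hT => ?_⟩
  have hT0 : 0 < T := by linarith
  have h1 := hC T hT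
  have h2 := hC2 T hT0
  have h3 := hC2 (T / 2) (half_pos hT0)
  set S := ∑' v : HeightOneSpectrum (𝓞 ℚ), cv (sqa a) v with hS
  have e3 : ∑' v : HeightOneSpectrum (𝓞 ℚ), cv (sqa a) v * wgt 0 T v = cmean (sqa a) 0 T := rfl
  have e4 : ∑' v : HeightOneSpectrum (𝓞 ℚ), cv (sqa a) v * wgt 0 (T / 2) v =
    cmean (sqa a) 0 (T / 2) := rfl
  rw [e3] at h2
  rw [e4] at h3
  set c1 := cmean (sqa a) 0 T
  set c2 := cmean (sqa a) 0 (T / 2)
  have e5 : cmean a 0 T + (Real.log T - (kap : ℝ)) + q1 =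
      (cmean2 a 0 T - ((-1 : ℤ) * (Real.log T - (kap : ℝ)) - q1)) +
        (1 / 2 * (c1 - S) - 1 / 2 * (c2 - S)) := by
    unfold cmean2
    push_cast
    ring
  have e6 : (cmean a 0 T).re + (Real.log T - kap) + Real.log (res N) =
      (cmean a 0 T + (Real.log T - (kap : ℝ)) + q1).re := by
    rw [Complex.add_re, Complex.add_re, Complex.sub_re, Complex.ofReal_re, Complex.ofReal_re, hq]
  rw [e6]
  refine (Complex.abs_re_le_norm _).trans ?_
  rw [e5]
  refine (norm_add_le _ _).trans ?_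
  have h10 : ‖(1 / 2 : ℂ)‖ = 1 / 2 := by norm_num
  have h11 : ‖1 / 2 * (c1 - S) - 1 / 2 * (c2 - S)‖ ≤ 1 / 2 * (C2 / T) + 1 / 2 * (C2 / (T / 2)) := by
    refine (norm_sub_le _ _).trans ?_
    rw [norm_mul, norm_mul, h10]
    linarith
  have h12 : 1 / 2 * (C2 / T) + 1 / 2 * (C2 / (T / 2)) ≤ 2 * C2 / T := by
    have : C2 / (T / 2) = 2 * (C2 / T) := by field_simp
    rw [this]
    have h13 : 0 ≤ C2 / T := by positivity
    have : 2 * C2 / T = 2 * (C2 / T) := by ring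
    linarith
  have : (C + 2 * C2) / T = C / T + 2 * C2 / T := by ring
  linarith

end Pool.Agent.U745.RZ
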